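import Pool.Agent.Lib.MP_fb3619_al.Base3

set_option autoImplicit false

/-! COOR: coordinates -/

universe u

namespace Pool.Agent.FourGp.H98

open Pool.Agent.FourGp

variable {G : Type u} [Group G] {H K : Subgroup G} {a b c : G}

/-- the common perpendicular of `z` and `c` is `b γ` -/
theorem coor_p (h : Cfg H K a b c) {z : Pt H} {γ : J h} (s : (inc H K).st h.pa z)
    (p : (inc H K).perp z (J.bp h γ)) : (inc H K).cr z h.pc = J.bp h γ := by
  refine (h.geo.uniq _ _ _ (fun e => ?_) p (h.geo.perp_symm _ _ (J.perp_bc h γ))).symm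
  exact h.geo.perp_st _ _ h.pac (h.geo.st_trans _ _ _ s e)

/-- the common perpendicular of `z` and `b` is `c β` -/
theorem coor_q (h : Cfg H K a b c) {z : Pt H} {β : J h.rot.rot} (s : (inc H K).st h.pa z)
    (q : (inc H K).perp z (J.ap h.rot.rot β)) : (inc H K).cr z h.pb = J.ap h.rot.rot β := by
  refine (h.geo.uniq _ _ _ (fun e => ?_) q (h.geo.perp_symm _ _ (J.perp_ac h.rot.rot β))).symm
  exact h.geo.perp_st _ _ h.pab (h.geo.st_trans _ _ _ s e)

theorem coor_nst (h : Cfg H K a b c) (γ : J h) (β : J h.rot.rot) :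
    ¬ (inc H K).st (J.bp h γ) (J.ap h.rot.rot β) := by
  intro e
  exact h.geo.perp_st _ _ h.pbc (h.geo.st_trans _ _ _ (J.st_b h γ)
    (h.geo.st_trans _ _ _ e (h.geo.st_symm _ _ (J.st_a h.rot.rot β))))

theorem coor_z (h : Cfg H K a b c) {z : Pt H} {γ : J h} {β : J h.rot.rot} (i : IsC h z γ β) :
    z = (inc H K).cr (J.bp h γ) (J.ap h.rot.rot β) :=
  h.geo.uniq _ _ _ (coor_nst h γ β) (h.geo.perp_symm _ _ i.p) (h.geo.perp_symm _ _ i.q)

theorem coor : CoorS.{u} := by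
  intro G _ H K a b c h
  have hg := h.geo
  refine ⟨?_, ?_, ?_, ?_, ?_, ?_, ?_⟩
  · intro z hz
    have s := hg.sim_st hz
    obtain ⟨h1, h2⟩ := (part1_cld _ _ hg h.lemF h.pa h.pb h.pc z h.pab h.pbc h.pac s).1 hz
    have n1 : ¬ (inc H K).st z h.pc := fun e =>
      hg.perp_st _ _ h.pac (hg.st_trans _ _ _ s e)
    have n2 : ¬ (inc H K).st z h.pb := fun e =>
      hg.perp_st _ _ h.pab (hg.st_trans _ _ _ s e)
    -- the point `y = z * c`
    set y := (inc H K).cr z h.pc with hy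
    have y1 : (inc H K).perp z y := hg.cr_l _ _ n1
    have y2 : (inc H K).perp h.pc y := hg.cr_r _ _ n1
    have n3 : ¬ (inc H K).st y h.pc := hg.cr_st_r n1
    have h1' : (inc H K).sim h.pa ((inc H K).cr y h.pc) := h1
    have h3 := (part1_line _ _ hg h.lemF h.pb h.pa h.pc ((inc H K).cr y h.pc) h.pba h.pac h.pbc
      h1' (hg.perp_symm _ _ (hg.cr_r _ _ n3))).2
    have e1 : (inc H K).cr ((inc H K).cr y h.pc) h.pc = y := by
      refine (hg.uniq _ _ _ (hg.cr_st_r n3) (hg.perp_symm _ _ (hg.cr_l _ _ n3)) y2).symm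
    rw [e1] at h3
    -- the line `l = z * b`
    set l := (inc H K).cr z h.pb with hl
    have l1 : (inc H K).perp z l := hg.cr_l _ _ n2
    have l2 : (inc H K).perp h.pb l := hg.cr_r _ _ n2
    have n4 : ¬ (inc H K).st l h.pb := hg.cr_st_r n2
    have h2' : (inc H K).sim h.pa ((inc H K).cr l h.pb) := h2
    have p4 : (inc H K).perp ((inc H K).cr l h.pb) h.pb := hg.perp_symm _ _ (hg.cr_r _ _ n4)
    have e2 : (inc H K).cr ((inc H K).cr l h.pb) h.pb = l := by
      refine (hg.uniq _ _ _ (hg.cr_st_r n4) (hg.perp_symm _ _ (hg.cr_l _ _ n4)) l2).symm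
    have hB : ∃ B : J h.rot.rot, J.bp h.rot.rot B = (inc H K).cr l h.pb :=
      ⟨J.ofb h.rot.rot _ h2' p4, J.bp_ofb h.rot.rot _ h2' p4⟩
    obtain ⟨B, hB⟩ := hB
    refine ⟨J.ofb h y h3 (hg.perp_symm _ _ y2), B, s, ?_, ?_⟩
    · rw [J.bp_ofb]; exact y1
    · have e3 : (inc H K).cr (J.bp h.rot.rot B) h.pb = J.ap h.rot.rot B := J.cr_bc h.rot.rot B
      rw [hB, e2] at e3
      rw [← e3]; exact l1
  · intro γ β
    have n := coor_nst h γ β
    refine ⟨(inc H K).cr (J.bp h γ) (J.ap h.rot.rot β), ?_, hg.perp_symm _ _ (hg.cr_l _ _ n),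
      hg.perp_symm _ _ (hg.cr_r _ _ n)⟩
    obtain ⟨t, ht, hs⟩ := hg.label
    have i1 := hg.cr_st_l n
    have i2 := hg.cr_st_r n
    have i3 := J.st_b h γ
    have i4 := J.st_a h.rot.rot β
    have i4' : (inc H K).st h.pc (J.ap h.rot.rot β) := i4
    have i5 := hg.perp_st _ _ h.pab
    have i6 := hg.perp_st _ _ h.pac
    have i7 := hg.perp_st _ _ h.pbc
    have t1 := ht h.pa; have t2 := ht h.pb; have t3 := ht h.pc
    have t4 := ht ((inc H K).cr (J.bp h γ) (J.ap h.rot.rot β))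
    rw [hs] at i1 i2 i3 i4' i5 i6 i7 ⊢
    omega
  · intro z γ β i
    refine (part1_cld _ _ hg h.lemF h.pa h.pb h.pc z h.pab h.pbc h.pac i.s).2 ⟨?_, ?_⟩
    · change (inc H K).sim h.pa ((inc H K).cr ((inc H K).cr z h.pc) h.pc)
      rw [coor_p h i.s i.p, J.cr_bc]
      exact J.sim_a h γ
    · change (inc H K).sim h.pa ((inc H K).cr ((inc H K).cr z h.pb) h.pb)
      rw [coor_q h i.s i.q]
      have := J.cr_ac h.rot.rot β
      have e : (inc H K).cr (J.ap h.rot.rot β) h.pb = J.bp h.rot.rot β := this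
      rw [e]
      exact J.sim_b h.rot.rot β
  · intro z γ β γ' β' i i'
    exact ⟨J.bp_inj h ((coor_p h i.s i.p).symm.trans (coor_p h i'.s i'.p)),
      J.ap_inj h.rot.rot ((coor_q h i.s i.q).symm.trans (coor_q h i'.s i'.q))⟩
  · intro z z' γ β i i'
    rw [coor_z h i, coor_z h i']
  · intro γ
    refine ⟨J.st_a h γ, ?_, ?_⟩
    · have n : ¬ (inc H K).st (J.ap h γ) h.pc := hg.perp_st _ _ (J.perp_ac h γ)
      have := hg.cr_l _ _ n
      rwa [J.cr_ac] at this
    · have : J.ap h.rot.rot 0 = h.pc := J.ap_zero h.rot.rot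
      rw [this]
      exact J.perp_ac h γ
  · intro β
    refine ⟨J.st_b h.rot.rot β, ?_, ?_⟩
    · rw [J.bp_zero]
      exact J.perp_bc h.rot.rot β
    · have n : ¬ (inc H K).st (J.bp h.rot.rot β) h.rot.rot.pc :=
        hg.perp_st _ _ (J.perp_bc h.rot.rot β)
      have := hg.cr_l _ _ n
      rwa [J.cr_bc] at this

end Pool.Agent.FourGp.H98
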