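import Pool.Agent.Lib.MP_fb3619_al.Base3

set_option autoImplicit false

/-! TRAN: translations in coordinates -/

universe u

namespace Pool.Agent.FourGp.H98

open Pool.Agent.FourGp

theorem tran : TranS.{u} := by
  intro G _ H K a b c h
  have hg := h.geo
  refine ⟨?_, ?_⟩
  · intro φ hφ x hx
    have hc := hg.nn_col hφ
    have ht := hg.nn_tt hφ
    refine ⟨?_, ?_⟩
    · intro z γ β i
      refine ⟨hg.st_trans _ _ _ i.s (hc.tp z), ?_, ?_⟩
      · have h1 := (hc.inc _ _).1 i.p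
        rwa [ht.lns _ (hg.perp_symm _ _ (J.perp_bc h γ))] at h1
      · have h1 := (hc.inc _ _).1 i.q
        rwa [J.trl_a' h.rot.rot hφ hx β] at h1
    · intro l β α i
      refine ⟨hg.st_trans _ _ _ i.s (hc.tl l), ?_, ?_⟩
      · have h1 := (hc.inc _ _).1 (hg.perp_symm _ _ i.p)
        rw [J.trl_b h.rot.rot hφ hx β] at h1
        exact hg.perp_symm _ _ h1
      · have h1 := (hc.inc _ _).1 (hg.perp_symm _ _ i.q)
        have h2 : φ.1 (J.ap h.rot α) = J.ap h.rot α :=
          ht.pts _ (hg.perp_symm _ _ (J.perp_ac h.rot α))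
        have h3 : (inc H K).perp (φ.1 (J.ap h.rot α)) (φ.2 l) := h1
        rw [h2] at h3
        exact hg.perp_symm _ _ h3
  · intro φ hφ x hx z γ β i
    have hc := hg.nn_col hφ
    have ht := hg.nn_tt hφ
    refine ⟨hg.st_trans _ _ _ i.s (hc.tp z), ?_, ?_⟩
    · have h1 := (hc.inc _ _).1 i.p
      rwa [J.trl_b' h hφ hx γ] at h1
    · have h1 := (hc.inc _ _).1 i.q
      rwa [ht.lns _ (hg.perp_symm _ _ (J.perp_ac h.rot.rot β))] at h1

end Pool.Agent.FourGp.H98
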