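import Pool.Agent.Lib.MP_fb3619_al.Base3

set_option autoImplicit false

/-! VECX: the points of `H₂` have coordinate vectors -/

universe u

namespace Pool.Agent.FourGp.H98

open Pool.Agent.FourGp

variable {G : Type u} [Group G] {H K H' K' : Subgroup G} {a b c : G}

theorem vecx_memK (h : Cfg H K a b c) (h' : Cfg H' K' a b c) (hK : K' ≤ K) {γ : G} (hγ : γ ∈ K)
    (hH : γ ∈ H') : γ ∈ K' := by
  have key : ∀ t : G, t ∉ K → γ * t ∉ K' := by
    intro t ht hm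
    apply ht
    have := K.mul_mem (K.inv_mem hγ) (hK hm)
    rwa [inv_mul_cancel_left] at this
  rcases h'.top γ hH with e | e | e | e
  · exact e
  · exact absurd e (key a h.ea)
  · exact absurd e (key b h.eb)
  · exact absurd e (key c h.ec)

theorem vecx_iota {x : G} (hx : x ∈ H') : iota x ∈ H' := H'.pow_mem hx _

theorem vecx_coord (h1 : CoorS.{u}) (h : Cfg H K a b c) (h' : Cfg H' K' a b c)
    (hK : K' ≤ K0 H K) {x : Pt H} (hx : x.1 ∈ H') (hax : a * x.1 ∈ K') :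
    ∃ (γ : J h) (β : J h.rot.rot), IsC h x γ β ∧ γ.1 ∈ K' ∧ β.1 ∈ K' := by
  have hg := h.geo
  have hiota := (part1_geom G H K a b c h).2.1
  have hsim : (inc H K).sim h.pa x := (part1_clsa G H K c a b h.rot.rot h.pa x rfl).2 (hK hax)
  obtain ⟨γ, β, i⟩ := (h1 G H K a b c h).1 x hsim
  have hKK : K' ≤ K := hK.trans (K0_le H K)
  refine ⟨γ, β, i, ?_, ?_⟩
  · refine vecx_memK h h' hKK γ.memK ?_
    have n1 : ¬ (inc H K).st x h.pc := fun e => hg.perp_st _ _ h.pac (hg.st_trans _ _ _ i.s e)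
    have e1 : (inc H K).cr x h.pc = J.bp h γ :=
      (hg.uniq _ _ _ n1 i.p (hg.perp_symm _ _ (J.perp_bc h γ))).symm
    have e2 := hiota x h.pc n1
    rw [e1] at e2
    have e3 : b * γ.1 = iota (x.1 * c) := e2
    have e4 : b * γ.1 ∈ H' := by rw [e3]; exact vecx_iota (H'.mul_mem hx h'.hc)
    have e5 := H'.mul_mem h'.hb e4
    rwa [← mul_assoc, h.hbb, one_mul] at e5
  · refine vecx_memK h h' hKK β.memK ?_
    have n1 : ¬ (inc H K).st x h.pb := fun e => hg.perp_st _ _ h.pab (hg.st_trans _ _ _ i.s e)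
    have e1 : (inc H K).cr x h.pb = J.ap h.rot.rot β :=
      (hg.uniq _ _ _ n1 i.q (hg.perp_symm _ _ (J.perp_ac h.rot.rot β))).symm
    have e2 := hiota x h.pb n1
    rw [e1] at e2
    have e3 : c * β.1 = iota (x.1 * b) := e2
    have e4 : c * β.1 ∈ H' := by rw [e3]; exact vecx_iota (H'.mul_mem hx h'.hb)
    have e5 := H'.mul_mem h'.hc e4
    rwa [← mul_assoc, h.hcc, one_mul] at e5

theorem vecx (h1 : CoorS.{u}) (h2 : SahS.{u}) (h3 : ChainS.{u}) : VecxS.{u} := by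
  intro G _ H K a b c h hJ R _ D x hx
  obtain ⟨-, c2, -, -, c5, -⟩ := h3 G H K a b c h hJ.fg
  have hX : ∀ t : J h.rot, t.1 ∈ K2 H K a b c → t ∈ (tri h).MX := (h2 G H K a b c h hJ).2.2
  have hY : ∀ t : J h.rot.rot, t.1 ∈ K2 H K a b c → t ∈ (tri h).MY := fun t ht =>
    (h2 G H K b c a h.rot hJ).2.2 t (by rw [K2_rot]; exact ht)
  have hZ : ∀ t : J h, t.1 ∈ K2 H K a b c → t ∈ (tri h).MZ := fun t ht =>
    (h2 G H K c a b h.rot.rot hJ).2.2 t (by rw [K2_rot, K2_rot]; exact ht)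
  have hKK : K2 H K a b c ≤ K := c5.trans (K0_le H K)
  -- the type of `x`
  have hinv : ∀ t : G, t * t = 1 → x.1 * t ∈ K2 H K a b c → t * x.1 ∈ K2 H K a b c := by
    intro t ht hm
    have h4 := (K2 H K a b c).inv_mem hm
    rwa [mul_inv_rev, inv_eq_of_mul_eq_one_right ht, inv_eq_of_mul_eq_one_right x.2.2.1] at h4
  rcases c2.top x.1 hx with e | e | e | e
  · exfalso
    obtain ⟨n, hn⟩ := h.odd x.1 (hKK e)
    rw [pow_succ, pow_mul, pow_two, x.2.2.1, one_pow, one_mul] at hn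
    exact x.2.2.2 hn
  · obtain ⟨γ, β, i, m1, m2⟩ := vecx_coord h1 h c2 c5 hx (hinv a h.haa e)
    exact ⟨_, Or.inl ⟨⟨γ, hZ γ m1⟩, ⟨β, hY β m2⟩, i, rfl⟩⟩
  · obtain ⟨α, γ, i, m1, m2⟩ := vecx_coord h1 h.rot c2.rot c5 hx (hinv b h.hbb e)
    exact ⟨_, Or.inr (Or.inl ⟨⟨α, hX α m1⟩, ⟨γ, hZ γ m2⟩, i, rfl⟩)⟩
  · obtain ⟨β, α, i, m1, m2⟩ := vecx_coord h1 h.rot.rot c2.rot.rot c5 hx (hinv c h.hcc e)
    exact ⟨_, Or.inr (Or.inr ⟨⟨β, hY β m1⟩, ⟨α, hX α m2⟩, i, rfl⟩)⟩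

end Pool.Agent.FourGp.H98
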